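import Pool.Agent.W_2cf66e_h6.KFlip6

/-!
# MP_2cf66e_nt: products of truncated powers of quadratics, both signs (helper6)
-/

set_option autoImplicit false

noncomputable section

open MeasureTheory MvPolynomial

namespace Pool.Agent.TopK

open Pool.Agent.QVol

/-- The product of the other factors. -/
def RR {ι β : Type} [Fintype β] [DecidableEq β] (u : β → MvPolynomial ι ℚ) (k : β → ℕ) (l : β)
    (z : ι → ℝ) : ℝ :=
  ∏ i ∈ Finset.univ.erase l, (max (aeval z (u i) : ℝ) 0) ^ (k i)

theorem RR_cont {ι β : Type} [Fintype ι] [Fintype β] [DecidableEq β] (u : β → MvPolynomial ι ℚ)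
    (k : β → ℕ) (l : β) : Continuous (RR u k l) :=
  continuous_finsetProd _ fun i _ => ((cont_aeval (u i)).max continuous_const).pow _

theorem II_upd {ι β : Type} [Fintype ι] [Fintype β] [DecidableEq β] (u : β → MvPolynomial ι ℚ)
    (k : β → ℕ) (l : β) (p : MvPolynomial ι ℚ) : II (Function.update u l p) k =
      ∫ z in box ι, RR u k l z * (max (aeval z p : ℝ) 0) ^ (k l) := by
  unfold II
  refine integral_congr_ae (Filter.Eventually.of_forall fun z => ?_)
  show (∏ i, (max (aeval z (Function.update u l p i) : ℝ) 0) ^ (k i)) =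
    RR u k l z * (max (aeval z p : ℝ) 0) ^ (k l)
  rw [← Finset.prod_erase_mul _ _ (Finset.mem_univ l), Function.update_self]
  congr 1
  refine Finset.prod_congr rfl fun i hi => ?_
  rw [Function.update_of_ne (Finset.ne_of_mem_erase hi)]

theorem int_RR {ι β : Type} [Fintype ι] [Fintype β] [DecidableEq β] (u : β → MvPolynomial ι ℚ)
    (k : β → ℕ) (l : β) (p : MvPolynomial ι ℚ) (j : ℕ) :
    IntegrableOn (fun z : ι → ℝ => RR u k l z * (max (aeval z p : ℝ) 0) ^ j) (box ι) :=
  ((RR_cont u k l).mul (((cont_aeval p).max continuous_const).pow j)).continuousOn.integrableOn_compact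
    (cpt_box ι)

theorem Dq_of_sign {x : ℝ} {n : ℕ} (h1 : Kq ((-1) ^ n * x)) (h2 : Kq (-((-1) ^ n * x))) :
    Dq x := by
  rcases neg_one_pow_eq_or ℝ n with h | h
  · rw [h, one_mul] at h1 h2
    exact ⟨h1, h2⟩
  · rw [h] at h1 h2
    refine ⟨?_, ?_⟩
    · convert h2 using 1
      ring
    · convert h1 using 1
      ring

theorem even_step {n : ℕ} (hn : ∀ m < n, BB m) {β : Type} [Fintype β]
    [DecidableEq β] (hβ : Fintype.card β = n) (h0 : 0 < n) (B : Finset β)
    (hB : ∀ (ι : Type) (_ : Fintype ι) (u : β → MvPolynomial ι ℚ) (k : β → ℕ),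
      (∀ i, (u i).totalDegree ≤ 2) → (∀ i, 2 * n ≤ k i) →
      (∀ i, i ∉ B → ∀ z ∈ box ι, 0 ≤ (aeval z (u i) : ℝ)) → Dq (II u k))
    {ι : Type} [Fintype ι] (u : β → MvPolynomial ι ℚ) (k : β → ℕ)
    (hd : ∀ i, (u i).totalDegree ≤ 2) (hk : ∀ i, 2 * n ≤ k i) (l : β)
    (hl : ∀ i, i ∉ B → i ≠ l → ∀ z ∈ box ι, 0 ≤ (aeval z (u i) : ℝ)) (he : Even (k l)) :
    Dq (II u k) := by
  obtain ⟨M, hM, hb⟩ := bdd_fam u
  have hM' : (0 : ℝ) < M := by exact_mod_cast hM
  obtain ⟨c, hc⟩ := pow_shift (k l) M hM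
  have hself : II u k = II (Function.update u l (u l)) k := by rw [Function.update_eq_self]
  have hkl : k l ≠ 0 := by have := hk l; omega
  -- the sum of the two flips
  have hW : II u k + II (Function.update u l (-u l)) k =
      ∑ a ∈ Finset.range (k l + 1), (c a : ℝ) *
        II (Function.update u l (u l + C (((a : ℚ) + 1) * M))) k := by
    rw [hself, II_upd, II_upd, ← integral_add (int_RR u k l _ _) (int_RR u k l _ _)]
    simp only [II_upd]
    simp only [← integral_const_mul]
    rw [← integral_finsetSum _ fun a _ => (int_RR u k l _ _).const_mul _]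
    refine setIntegral_congr_fun (meas_bx ι) fun z hz => ?_
    show RR u k l z * (max (aeval z (u l) : ℝ) 0) ^ (k l) +
      RR u k l z * (max (aeval z (-u l) : ℝ) 0) ^ (k l) =
      ∑ a ∈ Finset.range (k l + 1), (c a : ℝ) * (RR u k l z *
        (max (aeval z (u l + C (((a : ℚ) + 1) * M)) : ℝ) 0) ^ (k l))
    have h1 : (max (aeval z (u l) : ℝ) 0) ^ (k l) + (max (aeval z (-u l) : ℝ) 0) ^ (k l) =
        (aeval z (u l) : ℝ) ^ (k l) := by
      rw [map_neg]
      rcases le_total 0 (aeval z (u l) : ℝ) with h | h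
      · rw [max_eq_left h, max_eq_right (by linarith), zero_pow hkl, add_zero]
      · rw [max_eq_right h, max_eq_left (by linarith), zero_pow hkl, zero_add, he.neg_pow]
    rw [← mul_add, h1, hc, Finset.mul_sum]
    refine Finset.sum_congr rfl fun a _ => ?_
    have h2 := (abs_le.mp (hb l z hz)).1
    have h3 : (aeval z (u l + C (((a : ℚ) + 1) * M)) : ℝ) =
        aeval z (u l) + ((a : ℝ) + 1) * M := by
      rw [map_add, aeval_C]
      simp
    have h4 : 0 ≤ (aeval z (u l) : ℝ) + ((a : ℝ) + 1) * M := by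
      have : (0 : ℝ) ≤ (a : ℝ) * M := by positivity
      nlinarith
    rw [h3, max_eq_left h4]
    ring
  have hWD : Dq (II u k + II (Function.update u l (-u l)) k) := by
    rw [hW]
    refine Dq_sum _ _ fun a _ => Dq_smul (hB ι inferInstance _ k ?_ hk ?_) _
    · intro i
      by_cases hi : i = l
      · subst hi
        rw [Function.update_self]
        refine (totalDegree_add _ _).trans (max_le (hd i) ?_)
        rw [totalDegree_C]
        exact Nat.zero_le _
      · rw [Function.update_of_ne hi]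
        exact hd i
    · intro i hiB z hz
      by_cases hi : i = l
      · subst hi
        rw [Function.update_self]
        have h2 := (abs_le.mp (hb i z hz)).1
        have h3 : (aeval z (u i + C (((a : ℚ) + 1) * M)) : ℝ) =
            aeval z (u i) + ((a : ℝ) + 1) * M := by
          rw [map_add, aeval_C]
          simp
        rw [h3]
        have : (0 : ℝ) ≤ (a : ℝ) * M := by positivity
        nlinarith
      · rw [Function.update_of_ne hi]
        exact hl i hiB hi z hz
  have hn1 := natural' hn hβ h0 u hd k hk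
  have hn2 := natural' hn hβ h0 (Function.update u l (-u l)) ?_ k hk
  · refine Dq_of_sign (n := n + 1) hn1 ?_
    have h5 : Dq ((-1) ^ (n + 1) * (II u k + II (Function.update u l (-u l)) k)) := by
      have := Dq_smul hWD ((-1) ^ (n + 1))
      push_cast at this
      exact this
    have h6 := Kq_sub hn2 h5
    convert h6 using 1
    ring
  · intro i
    by_cases hi : i = l
    · subst hi
      rw [Function.update_self, totalDegree_neg]
      exact hd i
    · rw [Function.update_of_ne hi]
      exact hd i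

theorem box_inl {ι κ : Type} {z : ι ⊕ κ → ℝ} (hz : z ∈ box (ι ⊕ κ)) :
    (fun i => z (Sum.inl i)) ∈ box ι :=
  ⟨fun i => hz.1 (Sum.inl i), fun i => hz.2 (Sum.inl i)⟩

theorem odd_step {n : ℕ} (hn : ∀ m < n, BB m) {β : Type} [Fintype β]
    [DecidableEq β] (hβ : Fintype.card β = n) (h0 : 0 < n) (B : Finset β)
    (hB : ∀ (ι : Type) (_ : Fintype ι) (u : β → MvPolynomial ι ℚ) (k : β → ℕ),
      (∀ i, (u i).totalDegree ≤ 2) → (∀ i, 2 * n ≤ k i) →
      (∀ i, i ∉ B → ∀ z ∈ box ι, 0 ≤ (aeval z (u i) : ℝ)) → Dq (II u k))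
    {ι : Type} [Fintype ι] (u : β → MvPolynomial ι ℚ) (k : β → ℕ)
    (hd : ∀ i, (u i).totalDegree ≤ 2) (hk : ∀ i, 2 * n ≤ k i) (l : β)
    (hl : ∀ i, i ∉ B → i ≠ l → ∀ z ∈ box ι, 0 ≤ (aeval z (u i) : ℝ)) (he : Odd (k l)) :
    Dq (II u k) := by
  obtain ⟨j, hj⟩ : ∃ j, k l = j + 1 := ⟨k l - 1, by have := hk l; omega⟩
  have hje : Even j := by
    rw [hj] at he
    rcases Nat.even_or_odd j with h | h
    · exact h
    · exact absurd he (by rw [Nat.not_odd_iff_even]; exact h.add_odd odd_one)
  have hj2 : 2 * n ≤ j := by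
    have h1 := hk l
    obtain ⟨m, hm⟩ := hje
    omega
  obtain ⟨M, hM, hb⟩ := bdd_fam u
  have hM' : (0 : ℝ) < M := by exact_mod_cast hM
  obtain ⟨w, hw⟩ : ∃ w : β → MvPolynomial ι ℚ, w = fun i => C M⁻¹ * u i := ⟨_, rfl⟩
  have hwv : ∀ i z, (aeval z (w i) : ℝ) = (M : ℝ)⁻¹ * aeval z (u i) := by
    intro i z
    rw [hw]
    show (aeval z (C M⁻¹ * u i) : ℝ) = _
    rw [map_mul, aeval_C]
    simp
  have hw2 : ∀ i, ∀ z ∈ box ι, (aeval z (w i) : ℝ) ≤ 2 := by
    intro i z hz
    have h2 := (abs_le.mp (hb i z hz)).2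
    rw [hwv]
    have h4 : (M : ℝ)⁻¹ * aeval z (u i) ≤ (M : ℝ)⁻¹ * M :=
      mul_le_mul_of_nonneg_left h2 (inv_nonneg.mpr hM'.le)
    rw [inv_mul_cancel₀ hM'.ne'] at h4
    linarith
  obtain ⟨w', hw'⟩ : ∃ w' : β → MvPolynomial (ι ⊕ Unit) ℚ, w' =
    Function.update (fun i => rename Sum.inl (w i)) l (sh (w l)) := ⟨_, rfl⟩
  obtain ⟨k', hk'⟩ : ∃ k' : β → ℕ, k' = Function.update k l j := ⟨_, rfl⟩
  have hdw : ∀ i, (w i).totalDegree ≤ 2 := by
    intro i
    rw [hw]
    exact deg_cmul (hd i) _
  have h1 : Dq (II w' k') := by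
    refine even_step hn hβ h0 B hB w' k' ?_ ?_ l ?_ ?_
    · intro i
      rw [hw']
      by_cases hi : i = l
      · subst hi
        rw [Function.update_self]
        exact deg_sh (hdw i)
      · rw [Function.update_of_ne hi]
        exact (totalDegree_rename_le _ _).trans (hdw i)
    · intro i
      rw [hk']
      by_cases hi : i = l
      · subst hi
        rw [Function.update_self]
        exact hj2
      · rw [Function.update_of_ne hi]
        exact hk i
    · intro i hiB hi z hz
      rw [hw', Function.update_of_ne hi, aeval_rename]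
      show 0 ≤ (aeval (fun i => z (Sum.inl i)) (w i) : ℝ)
      rw [hwv]
      exact mul_nonneg (inv_nonneg.mpr hM'.le) (hl i hiB hi _ (box_inl hz))
    · rw [hk', Function.update_self]
      exact hje
  have h2 : II w' k' = (1 / ((j : ℝ) + 1)) * II w k := by
    have e1 : II w' k' = ∫ z in box ι, ∫ b in box Unit, ∏ i,
        (max (aeval (Sum.elim z b : ι ⊕ Unit → ℝ) (w' i) : ℝ) 0) ^ (k' i) := by
      unfold II
      rw [Pool.Agent.CVol.int_box_sum _ (II_cont _ _)]
    have e2 : II w k = ∫ z in box ι, RR w k l z * (max (aeval z (w l) : ℝ) 0) ^ (k l) := by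
      rw [← II_upd, Function.update_eq_self]
    rw [e1, e2, ← integral_const_mul]
    refine setIntegral_congr_fun (meas_bx ι) fun z hz => ?_
    show (∫ b in box Unit, ∏ i,
        (max (aeval (Sum.elim z b : ι ⊕ Unit → ℝ) (w' i) : ℝ) 0) ^ (k' i)) =
      (1 / ((j : ℝ) + 1)) * (RR w k l z * (max (aeval z (w l) : ℝ) 0) ^ (k l))
    have hj1 : 1 ≤ j := by omega
    have e3 : ∀ b : Unit → ℝ, (∏ i,
        (max (aeval (Sum.elim z b : ι ⊕ Unit → ℝ) (w' i) : ℝ) 0) ^ (k' i)) =
        RR w k l z * pp j ((aeval z (w l) : ℝ) - (1 + b ())) := by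
      intro b
      rw [← Finset.prod_erase_mul _ _ (Finset.mem_univ l)]
      congr 1
      · refine Finset.prod_congr rfl fun i hi => ?_
        have hi' := Finset.ne_of_mem_erase hi
        rw [hw', hk', Function.update_of_ne hi', Function.update_of_ne hi', aeval_rename,
          Sum.elim_comp_inl]
      · rw [hw', hk', Function.update_self, Function.update_self, sh_aeval]
        obtain ⟨m, rfl⟩ := Nat.exists_eq_add_of_le hj1
        rw [add_comm 1 m, pp_eq_max]
        congr 2
        ring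
    simp only [e3]
    rw [int_boxUnit fun y => RR w k l z * pp j ((aeval z (w l) : ℝ) - (1 + y)),
      intervalIntegral.integral_const_mul, pp_int01 j (hw2 l z hz), pp_eq_max, hj]
    ring
  have h3 : Dq (II w k) := by
    have h4 := Dq_smul h1 ((j : ℚ) + 1)
    rw [h2] at h4
    push_cast at h4
    have h5 : ((j : ℝ) + 1) * (1 / ((j : ℝ) + 1) * II w k) = II w k := by
      have : ((j : ℝ) + 1) ≠ 0 := by positivity
      field_simp
    rw [h5] at h4
    exact h4
  rw [hw, II_scale u k M⁻¹ (inv_pos.mpr hM)] at h3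
  have h6 := Dq_smul h3 (∏ i, M ^ (k i))
  have h7 : ((∏ i, M ^ (k i) : ℚ) : ℝ) * ((∏ i, (M⁻¹) ^ (k i) : ℚ) : ℝ) = 1 := by
    rw [← Rat.cast_mul, ← Finset.prod_mul_distrib, Finset.prod_eq_one]
    · norm_num
    · intro i _
      rw [← mul_pow, mul_inv_cancel₀ hM.ne', one_pow]
  rw [← mul_assoc, h7, one_mul] at h6
  exact h6

theorem BB_all : ∀ n, BB n := by
  intro n
  induction n using Nat.strong_induction_on with
  | _ n hn =>
    intro β _ _ hβ
    rcases Nat.eq_zero_or_pos n with h0 | h0
    · intro ι _ u k _ _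
      have : IsEmpty β := Fintype.card_eq_zero_iff.mp (hβ.trans h0)
      exact II_rat u k fun i => isEmptyElim i
    · have key : ∀ B : Finset β, ∀ (ι : Type) (_ : Fintype ι) (u : β → MvPolynomial ι ℚ)
          (k : β → ℕ), (∀ i, (u i).totalDegree ≤ 2) → (∀ i, 2 * n ≤ k i) →
          (∀ i, i ∉ B → ∀ z ∈ box ι, 0 ≤ (aeval z (u i) : ℝ)) → Dq (II u k) := by
        intro B
        induction B using Finset.induction_on with
        | empty =>
          intro ι _ u k _ _ h
          exact II_rat u k fun i => h i (Finset.notMem_empty i)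
        | insert l B _ ih =>
          intro ι _ u k hd hk h
          have hl : ∀ i, i ∉ B → i ≠ l → ∀ z ∈ box ι, 0 ≤ (aeval z (u i) : ℝ) := by
            intro i hiB hi
            exact h i (fun hi' => (Finset.mem_insert.mp hi').elim hi hiB)
          rcases Nat.even_or_odd (k l) with he | he
          · exact even_step hn hβ h0 B ih u k hd hk l hl he
          · exact odd_step hn hβ h0 B ih u k hd hk l hl he
      intro ι _ u k hd hk
      exact key Finset.univ ι inferInstance u k hd hk fun i hi => absurd (Finset.mem_univ i) hi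

/-- Both signs of the integral of a product of high truncated powers of quadratic polynomials. -/
theorem both6 {β ι : Type} [Fintype β] [Fintype ι] (u : β → MvPolynomial ι ℚ)
    (hu : ∀ i, (u i).totalDegree ≤ 2) (k : β → ℕ) (hk : ∀ i, 2 * Fintype.card β ≤ k i) :
    Dq (∫ z in box ι, ∏ i, (max (aeval z (u i) : ℝ) 0) ^ (k i)) := by
  classical
  exact BB_all (Fintype.card β) β inferInstance inferInstance rfl ι inferInstance u k hu hk

end Pool.Agent.TopK
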