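import Pool.Agent.W_2cf66e_h6.KNN6

/-!
# MP_2cf66e_nt: closure properties of `Kq` and `Dq` (helper6)
-/

set_option autoImplicit false

noncomputable section

open MeasureTheory MvPolynomial

namespace Pool.Agent.TopK

open Pool.Agent.QVol

theorem vol_boxR (ι : Type) [Fintype ι] : volume.real (box ι) = 2 ^ (Fintype.card ι) := by
  rw [measureReal_def, Pool.Agent.CVol.volume_box, ENNReal.toReal_ofReal (by positivity)]

theorem Kq_rat (q : ℚ) : Kq (q : ℝ) := by
  refine ⟨Empty, inferInstance, Unit, inferInstance, inferInstance, fun _ => 0, q, fun _ => ?_, ?_⟩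
  · rw [totalDegree_zero]
    exact Nat.zero_le _
  · simp

theorem Kq_smul {x : ℝ} (hx : Kq x) (q : ℚ) (hq : 0 ≤ q) : Kq (q * x) := by
  obtain ⟨ι, _, α, _, _, r, c, hr, rfl⟩ := hx
  have hq' : (0 : ℝ) ≤ (q : ℝ) := by exact_mod_cast hq
  refine ⟨ι, inferInstance, α, inferInstance, inferInstance, fun a => C q * r a, q * c,
    fun a => ?_, ?_⟩
  · refine (totalDegree_mul _ _).trans ?_
    rw [totalDegree_C, zero_add]
    exact hr a
  · have h1 : ∀ z : ι → ℝ, (⨆ a, (aeval z (C q * r a) : ℝ)) = (q : ℝ) * ⨆ a, (aeval z (r a) : ℝ) := by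
      intro z
      rw [Real.mul_iSup_of_nonneg hq']
      congr 1
      funext a
      rw [map_mul, aeval_C]
      rfl
    simp only [h1]
    rw [integral_const_mul]
    push_cast
    ring

theorem Kq_add {x y : ℝ} (hx : Kq x) (hy : Kq y) : Kq (x + y) := by
  obtain ⟨ι, _, α, _, _, r, c, hr, rfl⟩ := hx
  obtain ⟨κ, _, β, _, _, t, d, ht, rfl⟩ := hy
  obtain ⟨A, hA⟩ : ∃ A : ℚ, A = (1 / 2) ^ (Fintype.card κ) := ⟨_, rfl⟩
  obtain ⟨B, hB⟩ : ∃ B : ℚ, B = (1 / 2) ^ (Fintype.card ι) := ⟨_, rfl⟩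
  have hA0 : (0 : ℝ) ≤ (A : ℝ) := by
    rw [hA]
    push_cast
    positivity
  have hB0 : (0 : ℝ) ≤ (B : ℝ) := by
    rw [hB]
    push_cast
    positivity
  have hA1 : (A : ℝ) * 2 ^ (Fintype.card κ) = 1 := by
    rw [hA]
    push_cast
    rw [← mul_pow]
    norm_num
  have hB1 : (B : ℝ) * 2 ^ (Fintype.card ι) = 1 := by
    rw [hB]
    push_cast
    rw [← mul_pow]
    norm_num
  have hval : ∀ (u : ι → ℝ) (v : κ → ℝ),
      (⨆ a : α × β, (aeval (Sum.elim u v : ι ⊕ κ → ℝ)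
        (C A * rename Sum.inl (r a.1) + C B * rename Sum.inr (t a.2) :
          MvPolynomial (ι ⊕ κ) ℚ) : ℝ)) =
      (A : ℝ) * (⨆ a, (aeval u (r a) : ℝ)) + (B : ℝ) * ⨆ a, (aeval v (t a) : ℝ) := by
    intro u v
    rw [Real.mul_iSup_of_nonneg hA0, Real.mul_iSup_of_nonneg hB0, ← QF_sup]
    congr 1
    funext a
    rw [map_add, map_mul, map_mul, aeval_rename, aeval_rename, Sum.elim_comp_inl,
      Sum.elim_comp_inr, aeval_C, aeval_C]
    rfl
  refine ⟨ι ⊕ κ, inferInstance, α × β, inferInstance, inferInstance,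
    fun a => C A * rename Sum.inl (r a.1) + C B * rename Sum.inr (t a.2), c + d,
    fun a => ?_, ?_⟩
  · refine (totalDegree_add _ _).trans (max_le ?_ ?_)
    · refine (totalDegree_mul _ _).trans ?_
      rw [totalDegree_C, zero_add]
      exact (totalDegree_rename_le _ _).trans (hr a.1)
    · refine (totalDegree_mul _ _).trans ?_
      rw [totalDegree_C, zero_add]
      exact (totalDegree_rename_le _ _).trans (ht a.2)
  · rw [Pool.Agent.CVol.int_box_sum _ (QF_cont _)]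
    simp only [hval]
    have i1 : IntegrableOn (fun u : ι → ℝ => ⨆ a, (aeval u (r a) : ℝ)) (box ι) :=
      (QF_cont r).continuousOn.integrableOn_compact (cpt_box ι)
    have i2 : IntegrableOn (fun u : κ → ℝ => ⨆ a, (aeval u (t a) : ℝ)) (box κ) :=
      (QF_cont t).continuousOn.integrableOn_compact (cpt_box κ)
    have c2 : ∀ w : ℝ, IntegrableOn (fun _ : κ → ℝ => w) (box κ) := fun w =>
      continuous_const.continuousOn.integrableOn_compact (cpt_box κ)
    have c1 : ∀ w : ℝ, IntegrableOn (fun _ : ι → ℝ => w) (box ι) := fun w =>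
      continuous_const.continuousOn.integrableOn_compact (cpt_box ι)
    have h1 : ∀ u : ι → ℝ, (∫ v in box κ, ((A : ℝ) * (⨆ a, (aeval u (r a) : ℝ)) +
        (B : ℝ) * ⨆ a, (aeval v (t a) : ℝ))) = (⨆ a, (aeval u (r a) : ℝ)) +
        (B : ℝ) * ∫ v in box κ, ⨆ a, (aeval v (t a) : ℝ) := by
      intro u
      rw [integral_add (c2 _) (i2.const_mul _), setIntegral_const, vol_boxR,
        integral_const_mul, smul_eq_mul]
      have : (2 : ℝ) ^ (Fintype.card κ) * ((A : ℝ) * (⨆ a, (aeval u (r a) : ℝ))) =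
          ((A : ℝ) * 2 ^ (Fintype.card κ)) * (⨆ a, (aeval u (r a) : ℝ)) := by ring
      rw [this, hA1, one_mul]
    simp only [h1]
    rw [integral_add i1 (c1 _), setIntegral_const, vol_boxR, smul_eq_mul]
    have : (2 : ℝ) ^ (Fintype.card ι) * ((B : ℝ) * ∫ v in box κ, ⨆ a, (aeval v (t a) : ℝ)) =
        ((B : ℝ) * 2 ^ (Fintype.card ι)) * ∫ v in box κ, ⨆ a, (aeval v (t a) : ℝ) := by ring
    rw [this, hB1, one_mul]
    push_cast
    ring

theorem Kq_sum {α : Type} (T : Finset α) (x : α → ℝ) (h : ∀ a ∈ T, Kq (x a)) :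
    Kq (∑ a ∈ T, x a) := by
  classical
  induction T using Finset.induction_on with
  | empty =>
    rw [Finset.sum_empty]
    exact_mod_cast Kq_rat 0
  | insert a s ha ih =>
    rw [Finset.sum_insert ha]
    exact Kq_add (h a (Finset.mem_insert_self a s)) (ih fun b hb => h b (Finset.mem_insert_of_mem hb))

theorem Dq_rat (q : ℚ) : Dq (q : ℝ) := by
  refine ⟨Kq_rat q, ?_⟩
  have := Kq_rat (-q)
  push_cast at this
  exact this

theorem Dq_neg {x : ℝ} (h : Dq x) : Dq (-x) := ⟨h.2, by rw [neg_neg]; exact h.1⟩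

theorem Dq_add {x y : ℝ} (hx : Dq x) (hy : Dq y) : Dq (x + y) :=
  ⟨Kq_add hx.1 hy.1, by rw [neg_add]; exact Kq_add hx.2 hy.2⟩

theorem Dq_sub {x y : ℝ} (hx : Dq x) (hy : Dq y) : Dq (x - y) := by
  rw [sub_eq_add_neg]
  exact Dq_add hx (Dq_neg hy)

theorem Dq_smul {x : ℝ} (hx : Dq x) (q : ℚ) : Dq (q * x) := by
  rcases le_total 0 q with h | h
  · refine ⟨Kq_smul hx.1 q h, ?_⟩
    rw [← mul_neg]
    exact Kq_smul hx.2 q h
  · have h' : 0 ≤ -q := by linarith
    refine ⟨?_, ?_⟩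
    · have := Kq_smul hx.2 (-q) h'
      push_cast at this
      rwa [neg_mul_neg] at this
    · have := Kq_smul hx.1 (-q) h'
      push_cast at this
      rwa [neg_mul] at this

theorem Dq_sum {α : Type} (T : Finset α) (x : α → ℝ) (h : ∀ a ∈ T, Dq (x a)) :
    Dq (∑ a ∈ T, x a) := by
  refine ⟨Kq_sum T x fun a ha => (h a ha).1, ?_⟩
  rw [← Finset.sum_neg_distrib]
  exact Kq_sum T _ fun a ha => (h a ha).2

/-- A number in `Kq` minus one with both signs. -/
theorem Kq_sub {x y : ℝ} (hx : Kq x) (hy : Dq y) : Kq (x - y) := by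
  rw [sub_eq_add_neg]
  exact Kq_add hx hy.2

end Pool.Agent.TopK
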