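import Pool.Agent.W_2cf66e_h46.QE
import Pool.Agent.W_2cf66e_h46.QF
import Pool.Agent.W_2cf66e_h46.QAa
import Pool.Agent.W_2cf66e_h65.CBox

/-!
# MP_2cf66e_nt: integrals of maxima of quadratic polynomials over cubes, definitions (helper6)
-/

set_option autoImplicit false

noncomputable section

open MeasureTheory MvPolynomial

namespace Pool.Agent.TopK

open Pool.Agent.QVol

/-- `x` is a rational number plus the integral over a cube `[-1,1]^n` of a maximum of rational
polynomials of degree at most two. -/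
def Kq (x : ℝ) : Prop :=
  ∃ (ι : Type) (_ : Fintype ι) (α : Type) (_ : Fintype α) (_ : Nonempty α)
    (r : α → MvPolynomial ι ℚ) (c : ℚ), (∀ a, (r a).totalDegree ≤ 2) ∧
    x = c + ∫ z in box ι, ⨆ a, (aeval z (r a) : ℝ)

/-- Both signs. -/
def Dq (x : ℝ) : Prop := Kq x ∧ Kq (-x)

/-- The smoothed maximum. -/
def NN {β : Type} [DecidableEq β] : List β → (β → ℝ) → ℝ
  | [], x => ⨆ o : Option β, Option.elim o 0 x
  | l :: L, x => ∫ y in (-1 : ℝ)..1, NN L (Function.update x l (x l - (1 + y)))

end Pool.Agent.TopK
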