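import Pool.Agent.W_2cf66e_h6.KNat6b
import Pool.Agent.W_2cf66e_h46.QG

/-!
# MP_2cf66e_nt: products of truncated powers of quadratics, both signs (helper6)
-/

set_option autoImplicit false

noncomputable section

open MeasureTheory MvPolynomial

namespace Pool.Agent.TopK

open Pool.Agent.QVol

theorem meas_bx (ι : Type) [Fintype ι] : MeasurableSet (box ι) := by
  unfold box Pool.Agent.CVol.box
  exact measurableSet_Icc

/-- Finite differences: a power is a combination of positive shifts of it. -/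
theorem pow_shift (j : ℕ) (M : ℚ) (hM : 0 < M) : ∃ c : ℕ → ℚ, ∀ x : ℝ,
    x ^ j = ∑ a ∈ Finset.range (j + 1), (c a : ℝ) * (x + ((a : ℝ) + 1) * M) ^ j := by
  have hM' : (0 : ℝ) < M := by exact_mod_cast hM
  refine ⟨fun a => -((-1) ^ (j + 1) * ((-1) ^ (j - a) * ((j + 1).choose (a + 1) : ℚ))),
    fun x => ?_⟩
  have h1 := congr_fun (fwdDiff_iter_pow_eq_zero_of_lt (R := ℝ) (Nat.lt_succ_self j)) (x / M)
  rw [fwdDiff_iter_eq_sum_shift, Finset.sum_range_succ'] at h1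
  simp only [Nat.succ_eq_add_one, zsmul_eq_mul, Pi.zero_apply, nsmul_eq_mul, mul_one,
    Nat.sub_zero, Nat.choose_zero_right, Nat.cast_zero, add_zero, Nat.cast_one] at h1
  have h2 : (x / (M : ℝ)) ^ j = ∑ a ∈ Finset.range (j + 1),
      (-((-1 : ℝ) ^ (j + 1) * ((-1) ^ (j - a) * ((j + 1).choose (a + 1) : ℝ)))) *
        (x / M + ((a : ℝ) + 1)) ^ j := by
    have h3 : ((-1 : ℝ) ^ (j + 1)) * (-1) ^ (j + 1) = 1 := by
      rw [← mul_pow]
      norm_num
    have h4 : (x / (M : ℝ)) ^ j = (-1 : ℝ) ^ (j + 1) * ((-1 : ℝ) ^ (j + 1) * (x / (M : ℝ)) ^ j) := by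
      rw [← mul_assoc, h3, one_mul]
    push_cast at h1
    rw [h4, eq_neg_of_add_eq_zero_right h1, mul_neg, Finset.mul_sum, ← Finset.sum_neg_distrib]
    refine Finset.sum_congr rfl fun a _ => ?_
    ring
  have h5 : x ^ j = (M : ℝ) ^ j * (x / (M : ℝ)) ^ j := by
    rw [← mul_pow, mul_div_cancel₀ x hM'.ne']
  rw [h5, h2, Finset.mul_sum]
  refine Finset.sum_congr rfl fun a _ => ?_
  have h6 : (M : ℝ) ^ j * (x / M + ((a : ℝ) + 1)) ^ j = (x + ((a : ℝ) + 1) * M) ^ j := by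
    rw [← mul_pow]
    congr 1
    field_simp
  rw [← h6]
  push_cast
  ring

theorem II_rat {ι β : Type} [Fintype ι] [Fintype β] (u : β → MvPolynomial ι ℚ) (k : β → ℕ)
    (h : ∀ i, ∀ z ∈ box ι, 0 ≤ (aeval z (u i) : ℝ)) : Dq (II u k) := by
  obtain ⟨q, hq⟩ := rat_int (∏ i, (u i) ^ (k i)) (fun _ => -1) (fun _ => 1)
  rw [← box_eq_rbox] at hq
  have h1 : II u k = q := by
    rw [← hq]
    unfold II
    refine setIntegral_congr_fun (meas_bx ι) fun z hz => ?_
    show (∏ i, (max (aeval z (u i) : ℝ) 0) ^ (k i)) = (aeval z (∏ i, (u i) ^ (k i)) : ℝ)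
    rw [map_prod]
    refine Finset.prod_congr rfl fun i _ => ?_
    rw [map_pow, max_eq_left (h i z hz)]
  rw [h1]
  exact Dq_rat q

theorem II_scale {ι β : Type} [Fintype ι] [Fintype β] (u : β → MvPolynomial ι ℚ) (k : β → ℕ)
    (c : ℚ) (hc : 0 < c) : II (fun i => C c * u i) k = ((∏ i, c ^ (k i) : ℚ) : ℝ) * II u k := by
  unfold II
  rw [← integral_const_mul]
  refine integral_congr_ae (Filter.Eventually.of_forall fun z => ?_)
  have hc' : (0 : ℝ) < c := by exact_mod_cast hc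
  show (∏ i, (max (aeval z (C c * u i) : ℝ) 0) ^ (k i)) = ((∏ i, c ^ (k i) : ℚ) : ℝ) *
    ∏ i, (max (aeval z (u i) : ℝ) 0) ^ (k i)
  push_cast
  rw [← Finset.prod_mul_distrib]
  refine Finset.prod_congr rfl fun i _ => ?_
  have h1 : (aeval z (C c * u i) : ℝ) = (c : ℝ) * aeval z (u i) := by
    rw [map_mul, aeval_C]
    rfl
  rw [h1, ← mul_pow]
  congr 1
  rw [mul_max_of_nonneg _ _ hc'.le, mul_zero]

/-- A common rational bound. -/
theorem bdd_fam {ι β : Type} [Fintype ι] [Fintype β] (u : β → MvPolynomial ι ℚ) :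
    ∃ M : ℚ, 0 < M ∧ ∀ i, ∀ z ∈ box ι, |(aeval z (u i) : ℝ)| ≤ M := by
  choose B hB0 hB using fun i => bdd_box (u i)
  obtain ⟨M, hM⟩ := exists_rat_gt (∑ i, B i)
  have h0 : (0 : ℝ) ≤ ∑ i, B i := Finset.sum_nonneg fun i _ => hB0 i
  refine ⟨M, by exact_mod_cast lt_of_le_of_lt h0 hM, fun i z hz => ?_⟩
  exact (hB i z hz).trans ((Finset.single_le_sum (fun i _ => hB0 i) (Finset.mem_univ i)).trans hM.le)

/-- The hypothesis of the induction. -/
def BB (n : ℕ) : Prop :=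
  ∀ (β : Type) (_ : Fintype β) (_ : DecidableEq β), Fintype.card β = n →
    ∀ (ι : Type) (_ : Fintype ι) (u : β → MvPolynomial ι ℚ) (k : β → ℕ),
      (∀ i, (u i).totalDegree ≤ 2) → (∀ i, 2 * n ≤ k i) → Dq (II u k)

theorem deg_sh {ι : Type} {p : MvPolynomial ι ℚ} (hp : p.totalDegree ≤ 2) :
    (sh p).totalDegree ≤ 2 := deg_shift hp

theorem deg_cmul {ι : Type} {p : MvPolynomial ι ℚ} (hp : p.totalDegree ≤ 2) (c : ℚ) :
    (C c * p).totalDegree ≤ 2 := by
  refine (totalDegree_mul _ _).trans ?_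
  rw [totalDegree_C, zero_add]
  exact hp

/-- Natural sign without a bound on the polynomials. -/
theorem natural' {n : ℕ} (hn : ∀ m < n, BB m) {ι β : Type} [Fintype ι] [Fintype β]
    [DecidableEq β] (hβ : Fintype.card β = n) (h0 : 0 < n) (u : β → MvPolynomial ι ℚ)
    (hd : ∀ i, (u i).totalDegree ≤ 2) (k : β → ℕ) (hk : ∀ i, 2 * n ≤ k i) :
    Kq ((-1) ^ (n + 1) * II u k) := by
  have : Nonempty β := Fintype.card_pos_iff.mp (by omega)
  obtain ⟨M, hM, hb⟩ := bdd_fam u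
  have hM' : (0 : ℝ) < M := by exact_mod_cast hM
  have h1 := natural (fun i => C M⁻¹ * u i) (fun i => deg_cmul (hd i) _) ?_ k
    (fun i => by have := hk i; omega) ?_
  · rw [II_scale u k M⁻¹ (inv_pos.mpr hM), hβ] at h1
    have h2 := Kq_smul h1 (∏ i, M ^ (k i)) (Finset.prod_nonneg fun i _ => pow_nonneg hM.le _)
    have h3 : ((∏ i, M ^ (k i) : ℚ) : ℝ) * ((∏ i, (M⁻¹) ^ (k i) : ℚ) : ℝ) = 1 := by
      rw [← Rat.cast_mul, ← Finset.prod_mul_distrib, Finset.prod_eq_one]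
      · norm_num
      · intro i _
        rw [← mul_pow, mul_inv_cancel₀ hM.ne', one_pow]
    have h4 : ((∏ i, M ^ (k i) : ℚ) : ℝ) * ((-1) ^ (n + 1) *
        (((∏ i, (M⁻¹) ^ (k i) : ℚ) : ℝ) * II u k)) = (-1) ^ (n + 1) * II u k := by
      calc _ = (((∏ i, M ^ (k i) : ℚ) : ℝ) * ((∏ i, (M⁻¹) ^ (k i) : ℚ) : ℝ)) *
            ((-1) ^ (n + 1) * II u k) := by ring
        _ = _ := by rw [h3, one_mul]
    rw [h4] at h2
    exact h2
  · intro z hz i
    have h2 := (abs_le.mp (hb i z hz)).2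
    have h3 : (aeval z (C M⁻¹ * u i) : ℝ) = (M : ℝ)⁻¹ * aeval z (u i) := by
      rw [map_mul, aeval_C]
      simp
    rw [h3]
    have h4 : (M : ℝ)⁻¹ * aeval z (u i) ≤ (M : ℝ)⁻¹ * M :=
      mul_le_mul_of_nonneg_left h2 (inv_nonneg.mpr hM'.le)
    rw [inv_mul_cancel₀ hM'.ne'] at h4
    linarith
  · intro S hS hS1 l
    have hc : Fintype.card S < n := by
      rw [Fintype.card_coe, ← hβ, ← Finset.card_univ]
      exact Finset.card_lt_card (Finset.ssubset_univ_iff.mpr hS1)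
    refine hn _ hc S inferInstance inferInstance rfl (ι ⊕ Unit) inferInstance _ _
      (fun i => deg_sh (deg_cmul (hd i) _)) fun i => ?_
    have h5 := low_ge (k := k) (m := 2 * n - 1) (fun i => by have := hk i; omega) l i
    omega

end Pool.Agent.TopK
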