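import Pool.Agent.W_2cf66e_h6.KNN6

/-!
# MP_2cf66e_nt: layer cake formula for the smoothed maximum (helper6)
-/

set_option autoImplicit false

noncomputable section

open MeasureTheory MvPolynomial

namespace Pool.Agent.TopK

open Pool.Agent.QVol

theorem pp_mono (k : ℕ) : Monotone (pp k) := by
  intro x y hxy
  unfold pp
  by_cases hx : 0 ≤ x
  · rw [if_pos hx, if_pos (hx.trans hxy)]
    exact pow_le_pow_left₀ hx hxy k
  · rw [if_neg hx]
    split_ifs with hy
    · exact pow_nonneg hy k
    · exact le_refl 0

theorem pp_le (k : ℕ) {t : ℝ} (ht : t ≤ 2) : pp k t ≤ 2 ^ k := by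
  refine (pp_mono k ht).trans ?_
  unfold pp
  rw [if_pos (by norm_num : (0 : ℝ) ≤ 2)]

theorem pp_int01 (k : ℕ) {a : ℝ} (ha : a ≤ 2) :
    ∫ y in (-1 : ℝ)..1, pp k (a - (1 + y)) = pp (k + 1) a / (k + 1) := by
  have hI : ∀ c d : ℝ, IntervalIntegrable (fun y : ℝ => pp k (a - (1 + y))) volume c d := by
    intro c d
    refine Antitone.intervalIntegrable ?_
    intro x y hxy
    exact pp_mono k (by linarith)
  by_cases h0 : 0 ≤ a
  · rw [← intervalIntegral.integral_add_adjacent_intervals (hI (-1) (a - 1)) (hI (a - 1) 1)]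
    have h1 : ∫ y in (-1 : ℝ)..(a - 1), pp k (a - (1 + y)) =
        ∫ y in (-1 : ℝ)..(a - 1), ((a - 1) - y) ^ k := by
      refine intervalIntegral.integral_congr fun y hy => ?_
      rw [Set.uIcc_of_le (by linarith)] at hy
      show pp k (a - (1 + y)) = ((a - 1) - y) ^ k
      unfold pp
      rw [if_pos (by linarith [hy.2])]
      congr 1
      ring
    have h2 : ∫ y in (a - 1)..(1 : ℝ), pp k (a - (1 + y)) = ∫ _ in (a - 1)..(1 : ℝ), (0 : ℝ) := by
      refine intervalIntegral.integral_congr_ae ?_
      refine Filter.Eventually.of_forall fun y hy => ?_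
      rw [Set.uIoc_of_le (by linarith)] at hy
      show pp k (a - (1 + y)) = 0
      unfold pp
      rw [if_neg (by linarith [hy.1])]
    rw [h1, h2, intervalIntegral.integral_comp_sub_left (fun y => y ^ k), integral_pow]
    simp only [sub_self, intervalIntegral.integral_zero, add_zero]
    unfold pp
    rw [if_pos h0, zero_pow (Nat.succ_ne_zero k), sub_zero]
    congr 2
    ring
  · have h1 : ∫ y in (-1 : ℝ)..1, pp k (a - (1 + y)) = ∫ _ in (-1 : ℝ)..1, (0 : ℝ) := by
      refine intervalIntegral.integral_congr fun y hy => ?_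
      rw [Set.uIcc_of_le (by norm_num)] at hy
      show pp k (a - (1 + y)) = 0
      unfold pp
      rw [if_neg (by linarith [hy.1])]
    rw [h1, intervalIntegral.integral_zero]
    unfold pp
    rw [if_neg h0, zero_div]

theorem sup_form {β : Type} [Fintype β] (x : β → ℝ) (hx : ∀ i, x i ≤ 2) :
    (⨆ o : Option β, Option.elim o 0 x) =
      ∫ s in (-1 : ℝ)..1, (1 - ∏ i, (1 - pp 0 (x i - 1 - s))) := by
  obtain ⟨M, hM⟩ : ∃ M, M = ⨆ o : Option β, Option.elim o 0 x := ⟨_, rfl⟩
  have hle : ∀ o : Option β, Option.elim o 0 x ≤ M := by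
    intro o
    rw [hM]
    have hb : BddAbove (Set.range fun o : Option β => Option.elim o 0 x) :=
      (Set.finite_range _).bddAbove
    exact le_ciSup hb o
  have hM0 : 0 ≤ M := hle none
  have hM2 : M ≤ 2 := by
    rw [hM]
    refine ciSup_le (fun o : Option β => ?_)
    cases o with
    | none => exact zero_le_two
    | some i => exact hx i
  obtain ⟨o, ho⟩ : ∃ o : Option β, Option.elim o 0 x = ⨆ o : Option β, Option.elim o 0 x :=
    exists_eq_ciSup_of_finite
  rw [← hM] at ho ⊢
  have h1 : ∫ s in (-1 : ℝ)..1, (1 - ∏ i, (1 - pp 0 (x i - 1 - s))) =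
      ∫ s in (-1 : ℝ)..1, (Set.Iic (M - 1)).indicator (fun _ => (1 : ℝ)) s := by
    refine intervalIntegral.integral_congr_ae ?_
    refine Filter.Eventually.of_forall fun s hs => ?_
    rw [Set.uIoc_of_le (by norm_num)] at hs
    by_cases h : s ≤ M - 1
    · rw [Set.indicator_of_mem (Set.mem_Iic.mpr h)]
      cases o with
      | none =>
        have : (0 : ℝ) = M := ho
        linarith [hs.1]
      | some i =>
        have hi : x i = M := ho
        rw [Finset.prod_eq_zero (Finset.mem_univ i), sub_zero]
        unfold pp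
        rw [if_pos (by rw [hi]; linarith), pow_zero, sub_self]
    · rw [Set.indicator_of_notMem (fun h' => h (Set.mem_Iic.mp h'))]
      rw [Finset.prod_eq_one, sub_self]
      intro i _
      unfold pp
      have := hle (some i)
      have hi : x i ≤ M := this
      rw [if_neg (by push Not at h; linarith), sub_zero]
  rw [h1, intervalIntegral.integral_of_le (by norm_num), setIntegral_indicator measurableSet_Iic,
    Set.Ioc_inter_Iic, setIntegral_const, smul_eq_mul, mul_one, min_eq_right (by linarith),
    Real.volume_real_Ioc_of_le (by linarith)]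
  ring

/-- The layer cake formula. -/
theorem NN_form {β : Type} [Fintype β] [DecidableEq β] (L : List β) :
    ∀ x : β → ℝ, (∀ i, x i ≤ 2) → NN L x = ∫ s in (-1 : ℝ)..1,
      ((∏ i, (2 : ℝ) ^ (L.count i)) - ∏ i, ((2 : ℝ) ^ (L.count i) -
        pp (L.count i) (x i - 1 - s) / (L.count i).factorial)) := by
  induction L with
  | nil =>
    intro x hx
    have h := sup_form x hx
    show (⨆ o : Option β, Option.elim o 0 x) = _
    rw [h]
    simp
  | cons l L ih =>
    intro x hx
    have hupd : ∀ y : ℝ, -1 ≤ y → ∀ i, Function.update x l (x l - (1 + y)) i ≤ 2 := by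
      intro y hy i
      by_cases hi : i = l
      · subst hi
        rw [Function.update_self]
        linarith [hx i]
      · rw [Function.update_of_ne hi]
        exact hx i
    obtain ⟨P, hP⟩ : ∃ P : ℝ, P = ∏ i, (2 : ℝ) ^ (L.count i) := ⟨_, rfl⟩
    obtain ⟨R, hR⟩ : ∃ R : ℝ → ℝ, R = fun s => ∏ i ∈ Finset.univ.erase l,
      ((2 : ℝ) ^ (L.count i) - pp (L.count i) (x i - 1 - s) / (L.count i).factorial) := ⟨_, rfl⟩
    obtain ⟨c, hc⟩ : ∃ c, c = L.count l := ⟨_, rfl⟩
    obtain ⟨F, hF⟩ : ∃ F : ℝ → ℝ → ℝ, F = fun y s => P - R s * ((2 : ℝ) ^ c -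
      pp c (x l - 1 - s - (1 + y)) / c.factorial) := ⟨_, rfl⟩
    have hfac : ∀ (k : ℕ) (t : ℝ), t ≤ 2 → 0 ≤ (2 : ℝ) ^ k - pp k t / k.factorial ∧
        (2 : ℝ) ^ k - pp k t / k.factorial ≤ 2 ^ k := by
      intro k t ht
      have h1 := pp_le k ht
      have h2 := pp_nonneg k t
      have h3 : (1 : ℝ) ≤ k.factorial := Nat.one_le_cast.mpr (Nat.factorial_pos k)
      have h4 : pp k t / k.factorial ≤ pp k t := div_le_self h2 h3
      have h5 : 0 ≤ pp k t / k.factorial := div_nonneg h2 (by linarith)
      constructor <;> linarith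
    have hprod : ∀ y s : ℝ, (∏ i, ((2 : ℝ) ^ (L.count i) -
        pp (L.count i) (Function.update x l (x l - (1 + y)) i - 1 - s) /
          (L.count i).factorial)) = R s * ((2 : ℝ) ^ c -
        pp c (x l - 1 - s - (1 + y)) / c.factorial) := by
      intro y s
      rw [← Finset.prod_erase_mul _ _ (Finset.mem_univ l), hR, hc]
      congr 1
      · refine Finset.prod_congr rfl fun i hi => ?_
        rw [Function.update_of_ne (Finset.ne_of_mem_erase hi)]
      · rw [Function.update_self]
        congr 3
        ring
    have hFb : ∀ y s : ℝ, -1 ≤ y → -1 ≤ s → ‖F y s‖ ≤ P := by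
      intro y s hy hs
      rw [hF]
      show ‖P - R s * ((2 : ℝ) ^ c - pp c (x l - 1 - s - (1 + y)) / c.factorial)‖ ≤ P
      rw [← hprod y s]
      have h1 : 0 ≤ ∏ i, ((2 : ℝ) ^ (L.count i) -
          pp (L.count i) (Function.update x l (x l - (1 + y)) i - 1 - s) /
          (L.count i).factorial) := Finset.prod_nonneg fun i _ =>
            (hfac _ _ (by linarith [hupd y hy i])).1
      have h2 : (∏ i, ((2 : ℝ) ^ (L.count i) -
          pp (L.count i) (Function.update x l (x l - (1 + y)) i - 1 - s) /
          (L.count i).factorial)) ≤ P := by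
        rw [hP]
        exact Finset.prod_le_prod (fun i _ => (hfac _ _ (by linarith [hupd y hy i])).1)
          (fun i _ => (hfac _ _ (by linarith [hupd y hy i])).2)
      rw [Real.norm_eq_abs, abs_le]
      constructor <;> linarith
    have hmeas : Measurable (Function.uncurry F) := by
      rw [hF]
      have hRm : Measurable R := by
        rw [hR]
        refine Finset.measurable_prod _ fun i _ => ?_
        refine measurable_const.sub ?_
        exact ((pp_meas _).comp (measurable_const.sub measurable_id)).div_const _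
      refine measurable_const.sub ((hRm.comp measurable_snd).mul (measurable_const.sub ?_))
      refine ((pp_meas _).comp ?_).div_const _
      exact (measurable_const.sub measurable_snd).sub (measurable_const.add measurable_fst)
    have hint : Integrable (Function.uncurry F)
        ((volume.restrict (Set.Ioc (-1 : ℝ) 1)).prod (volume.restrict (Set.Ioc (-1 : ℝ) 1))) := by
      refine Integrable.of_bound hmeas.aestronglyMeasurable P ?_
      rw [Measure.prod_restrict]
      refine (ae_restrict_iff' (measurableSet_Ioc.prod measurableSet_Ioc)).mpr ?_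
      refine Filter.Eventually.of_forall fun p hp => ?_
      exact hFb p.1 p.2 hp.1.1.le hp.2.1.le
    have e1 : NN (l :: L) x = ∫ y in (-1 : ℝ)..1, ∫ s in (-1 : ℝ)..1, F y s := by
      show (∫ y in (-1 : ℝ)..1, NN L (Function.update x l (x l - (1 + y)))) = _
      refine intervalIntegral.integral_congr fun y hy => ?_
      rw [Set.uIcc_of_le (by norm_num)] at hy
      show NN L (Function.update x l (x l - (1 + y))) = ∫ s in (-1 : ℝ)..1, F y s
      rw [ih _ (hupd y hy.1)]
      refine intervalIntegral.integral_congr fun s _ => ?_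
      show _ = F y s
      rw [hprod y s, hF, ← hP]
    have e2 : (∫ y in (-1 : ℝ)..1, ∫ s in (-1 : ℝ)..1, F y s) =
        ∫ s in (-1 : ℝ)..1, ∫ y in (-1 : ℝ)..1, F y s := by
      simp only [intervalIntegral.integral_of_le (by norm_num : (-1 : ℝ) ≤ 1)]
      exact integral_integral_swap hint
    rw [e1, e2]
    refine intervalIntegral.integral_congr fun s hs => ?_
    rw [Set.uIcc_of_le (by norm_num)] at hs
    show (∫ y in (-1 : ℝ)..1, F y s) = _
    have hppI : IntervalIntegrable (fun y : ℝ => pp c (x l - 1 - s - (1 + y))) volume (-1) 1 := by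
      refine Antitone.intervalIntegrable ?_
      intro y y' hyy
      exact pp_mono c (by linarith)
    have e3 : (∫ y in (-1 : ℝ)..1, F y s) = 2 * P - R s * (2 ^ (c + 1) -
        pp (c + 1) (x l - 1 - s) / (c + 1).factorial) := by
      have h1 : ∀ y, F y s = (P - R s * 2 ^ c) + (R s / c.factorial) *
          pp c (x l - 1 - s - (1 + y)) := by
        intro y
        rw [hF]
        show P - R s * ((2 : ℝ) ^ c - pp c (x l - 1 - s - (1 + y)) / c.factorial) = _
        ring
      simp only [h1]
      rw [intervalIntegral.integral_add intervalIntegrable_const (hppI.const_mul _),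
        intervalIntegral.integral_const, intervalIntegral.integral_const_mul,
        pp_int01 c (by linarith [hx l, hs.1]), Nat.factorial_succ]
      have h3 : (c.factorial : ℝ) ≠ 0 := by exact_mod_cast Nat.factorial_ne_zero c
      have h4 : ((c : ℝ) + 1) ≠ 0 := by positivity
      push_cast
      rw [smul_eq_mul]
      field_simp
      ring
    rw [e3]
    have hcl : (l :: L).count l = c + 1 := by rw [List.count_cons_self, hc]
    have hci : ∀ i ∈ Finset.univ.erase l, (l :: L).count i = L.count i := by
      intro i hi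
      exact List.count_cons_of_ne (Finset.ne_of_mem_erase hi).symm
    congr 1
    · have h5 : ∏ i ∈ Finset.univ.erase l, (2 : ℝ) ^ ((l :: L).count i) =
          ∏ i ∈ Finset.univ.erase l, (2 : ℝ) ^ (L.count i) :=
        Finset.prod_congr rfl fun i hi => by rw [hci i hi]
      rw [hP, ← Finset.prod_erase_mul _ _ (Finset.mem_univ l),
        ← Finset.prod_erase_mul _ (fun i => (2 : ℝ) ^ ((l :: L).count i)) (Finset.mem_univ l),
        hcl, ← hc, h5]
      ring
    · rw [← Finset.prod_erase_mul _ _ (Finset.mem_univ l), hcl, hR]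
      congr 1
      refine Finset.prod_congr rfl fun i hi => ?_
      rw [hci i hi]

end Pool.Agent.TopK
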