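import Pool.Agent.W_2cf66e_h6.KForm6

/-!
# MP_2cf66e_nt: the telescoping identity for products of truncated powers (helper6)
-/

set_option autoImplicit false

noncomputable section

open MeasureTheory MvPolynomial Filter Topology

namespace Pool.Agent.TopK

open Pool.Agent.QVol

theorem hda_max (n : ℕ) (x : ℝ) :
    HasDerivAt (fun y : ℝ => (max y 0) ^ (n + 2)) (((n : ℝ) + 2) * (max x 0) ^ (n + 1)) x := by
  rcases lt_trichotomy x 0 with h | h | h
  · have h1 : (fun y : ℝ => (max y 0) ^ (n + 2)) =ᶠ[𝓝 x] fun _ => 0 := by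
      filter_upwards [Iio_mem_nhds h] with y hy
      rw [max_eq_right (le_of_lt hy)]
      simp
    have h2 : ((n : ℝ) + 2) * (max x 0) ^ (n + 1) = 0 := by
      rw [max_eq_right h.le]
      simp
    rw [h2]
    exact (hasDerivAt_const x (0 : ℝ)).congr_of_eventuallyEq h1
  · subst h
    have h2 : ((n : ℝ) + 2) * (max (0 : ℝ) 0) ^ (n + 1) = 0 := by simp
    rw [h2, hasDerivAt_iff_tendsto_slope]
    have h3 : Tendsto (fun y : ℝ => (max y 0) ^ (n + 1)) (𝓝[≠] 0) (𝓝 0) := by
      have hc : Continuous (fun y : ℝ => (max y 0) ^ (n + 1)) :=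
        (continuous_id.max continuous_const).pow _
      have := (hc.tendsto 0).mono_left (nhdsWithin_le_nhds (s := {0}ᶜ))
      simpa using this
    refine h3.congr' ?_
    filter_upwards [self_mem_nhdsWithin] with y hy
    have hy0 : y ≠ 0 := hy
    rw [slope_def_field]
    simp only [max_self, sub_zero]
    rw [zero_pow (by omega), sub_zero, eq_div_iff hy0]
    rcases le_total 0 y with h | h
    · rw [max_eq_left h]
      ring
    · rw [max_eq_right h]
      simp
  · have h1 : (fun y : ℝ => (max y 0) ^ (n + 2)) =ᶠ[𝓝 x] fun y => y ^ (n + 2) := by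
      filter_upwards [Ioi_mem_nhds h] with y hy
      rw [max_eq_left (le_of_lt hy)]
    have h2 : ((n : ℝ) + 2) * (max x 0) ^ (n + 1) = ((n + 2 : ℕ) : ℝ) * x ^ (n + 2 - 1) := by
      rw [max_eq_left h.le]
      push_cast
      rfl
    rw [h2]
    exact (hasDerivAt_pow (n + 2) x).congr_of_eventuallyEq h1

/-- The normalized truncated power. -/
def tp (k : ℕ) (t : ℝ) : ℝ := (max t 0) ^ k / (k.factorial : ℝ)

theorem tp_cont (k : ℕ) : Continuous (tp k) := by
  unfold tp
  exact ((continuous_id.max continuous_const).pow k).div_const _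

theorem tp_deriv {k : ℕ} (hk : 2 ≤ k) (a s : ℝ) :
    HasDerivAt (fun s : ℝ => tp k (a - s)) (-tp (k - 1) (a - s)) s := by
  obtain ⟨n, rfl⟩ := Nat.exists_eq_add_of_le hk
  have h0 : HasDerivAt (fun s : ℝ => a - s) (-1) s := (hasDerivAt_id s).const_sub a
  have h1 := (hda_max n (a - s)).comp s h0
  have h2 := h1.div_const (((2 + n).factorial : ℕ) : ℝ)
  have e : (2 + n) = n + 2 := by ring
  have hf : (fun s : ℝ => tp (2 + n) (a - s)) = fun x => ((fun y : ℝ => (max y 0) ^ (n + 2)) ∘
      fun s : ℝ => a - s) x / (((2 + n).factorial : ℕ) : ℝ) := by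
    funext t
    unfold tp
    rw [e]
    rfl
  rw [hf]
  refine h2.congr_deriv ?_
  unfold tp
  have e2 : 2 + n - 1 = n + 1 := by omega
  rw [e2, e, Nat.factorial_succ (n + 1)]
  have h3 : ((n + 1).factorial : ℝ) ≠ 0 := by exact_mod_cast Nat.factorial_ne_zero (n + 1)
  have h4 : ((n : ℝ) + 1 + 1) ≠ 0 := by positivity
  push_cast
  field_simp
  ring

/-- Lower the exponent at one index. -/
def low {β : Type} [DecidableEq β] (k : β → ℕ) (l : β) : β → ℕ :=
  fun i => k i - (if i = l then 1 else 0)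

theorem ftc_prod {β : Type} [Fintype β] [DecidableEq β] [Nonempty β] (x : β → ℝ)
    (hx : ∀ i, x i ≤ 2) (k : β → ℕ) (hk : ∀ i, 2 ≤ k i) :
    ∑ l, ∫ s in (-1 : ℝ)..1, ∏ i, tp (low k l i) (x i - 1 - s) = ∏ i, tp (k i) (x i) := by
  have hc : ∀ l, Continuous fun s : ℝ => ∏ i, tp (low k l i) (x i - 1 - s) := fun l =>
    continuous_finsetProd _ fun i _ => (tp_cont _).comp (continuous_const.sub continuous_id)
  have hd : ∀ s : ℝ, HasDerivAt (fun s : ℝ => ∏ i, tp (k i) (x i - 1 - s))
      (-∑ l, ∏ i, tp (low k l i) (x i - 1 - s)) s := by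
    intro s
    have h := HasDerivAt.fun_finsetProd (u := Finset.univ)
      (f := fun (i : β) (s : ℝ) => tp (k i) (x i - 1 - s))
      (f' := fun i => -tp (k i - 1) (x i - 1 - s)) (x := s)
      (fun i _ => tp_deriv (hk i) (x i - 1) s)
    refine h.congr_deriv ?_
    symm
    rw [← Finset.sum_neg_distrib]
    refine Finset.sum_congr rfl fun l _ => ?_
    rw [smul_eq_mul, mul_neg, ← Finset.prod_erase_mul _ _ (Finset.mem_univ l)]
    congr 2
    · refine Finset.prod_congr rfl fun i hi => ?_
      unfold low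
      rw [if_neg (Finset.ne_of_mem_erase hi), Nat.sub_zero]
    · unfold low
      rw [if_pos rfl]
  have h1 := intervalIntegral.integral_eq_sub_of_hasDerivAt (a := -1) (b := 1)
    (fun s _ => hd s) ((continuous_finsetSum _ fun l _ => hc l).neg.intervalIntegrable _ _)
  rw [intervalIntegral.integral_neg, intervalIntegral.integral_finsetSum
    (fun l _ => (hc l).intervalIntegrable _ _)] at h1
  have h2 : ∏ i, tp (k i) (x i - 1 - 1) = 0 := by
    obtain ⟨i0⟩ := (inferInstance : Nonempty β)
    refine Finset.prod_eq_zero (Finset.mem_univ i0) ?_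
    unfold tp
    rw [max_eq_right (by linarith [hx i0]), zero_pow (by have := hk i0; omega), zero_div]
  rw [h2, zero_sub] at h1
  have h3 := neg_injective h1
  rw [h3]
  refine Finset.prod_congr rfl fun i _ => ?_
  congr 1
  ring

end Pool.Agent.TopK
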