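import Pool.Agent.W_2cf66e_h6.KDef6

/-!
# MP_2cf66e_nt: the smoothed maximum (helper6)
-/

set_option autoImplicit false

noncomputable section

open MeasureTheory MvPolynomial

namespace Pool.Agent.TopK

open Pool.Agent.QVol

theorem int_boxUnit (g : ℝ → ℝ) : ∫ b in box Unit, g (b ()) = ∫ y in (-1 : ℝ)..1, g y := by
  have h1 : box Unit = (fun b : Unit → ℝ => b ()) ⁻¹' (Set.Icc (-1) 1) := by
    ext b
    constructor
    · intro h
      exact ⟨h.1 (), h.2 ()⟩
    · intro h
      exact ⟨fun _ => h.1, fun _ => h.2⟩
  have hm := volume_preserving_funUnique Unit ℝ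
  have h2 := hm.setIntegral_preimage_emb (MeasurableEquiv.funUnique Unit ℝ).measurableEmbedding g
    (Set.Icc (-1) 1)
  rw [intervalIntegral.integral_of_le (by norm_num), ← integral_Icc_eq_integral_Ioc, ← h2, h1]
  rfl

theorem cont_sup {β : Type} [Finite β] : Continuous fun x : β → ℝ =>
    ⨆ o : Option β, Option.elim o 0 x := by
  haveI := Fintype.ofFinite β
  have h : (fun x : β → ℝ => ⨆ o : Option β, Option.elim o 0 x) =
      fun x : β → ℝ => Finset.univ.sup' Finset.univ_nonempty
        (fun o : Option β => Option.elim o 0 x) := by
    funext x
    rw [Finset.sup'_univ_eq_ciSup]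
  rw [h]
  refine Continuous.finset_sup'_apply _ fun o _ => ?_
  cases o with
  | none => exact continuous_const
  | some i => exact continuous_apply i

theorem NN_cont {β : Type} [Finite β] [DecidableEq β] (L : List β) :
    Continuous (NN L : (β → ℝ) → ℝ) := by
  induction L with
  | nil => exact cont_sup
  | cons l L ih =>
    show Continuous fun x : β → ℝ => ∫ y in (-1 : ℝ)..1,
      NN L (Function.update x l (x l - (1 + y)))
    refine intervalIntegral.continuous_parametric_intervalIntegral_of_continuous' ?_ _ _
    refine ih.comp ?_
    refine Continuous.update continuous_fst l ?_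
    exact ((continuous_apply l).comp continuous_fst).sub (continuous_const.add continuous_snd)

theorem deg_shift {ι : Type} {p : MvPolynomial ι ℚ} (hp : p.totalDegree ≤ 2) :
    (rename Sum.inl p - 1 - X (Sum.inr ()) : MvPolynomial (ι ⊕ Unit) ℚ).totalDegree ≤ 2 := by
  refine (totalDegree_sub _ _).trans (max_le ((totalDegree_sub _ _).trans (max_le ?_ ?_)) ?_)
  · exact (totalDegree_rename_le _ _).trans hp
  · rw [totalDegree_one]
    exact Nat.zero_le _
  · rw [totalDegree_X]
    exact one_le_two

/-- The integral of a smoothed maximum of quadratic polynomials is in `Kq`. -/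
theorem Kq_NN {β : Type} [Fintype β] [DecidableEq β] (L : List β) :
    ∀ (ι : Type) (_ : Fintype ι) (u : β → MvPolynomial ι ℚ), (∀ i, (u i).totalDegree ≤ 2) →
      Kq (∫ z in box ι, NN L (fun i => (aeval z (u i) : ℝ))) := by
  induction L with
  | nil =>
    intro ι _ u hu
    refine ⟨ι, inferInstance, Option β, inferInstance, inferInstance,
      fun o => Option.elim o 0 u, 0, ?_, ?_⟩
    · intro o
      cases o with
      | none =>
        show (0 : MvPolynomial ι ℚ).totalDegree ≤ 2
        rw [totalDegree_zero]
        exact Nat.zero_le _
      | some i => exact hu i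
    · rw [Rat.cast_zero, zero_add]
      refine integral_congr_ae (Filter.Eventually.of_forall fun z => ?_)
      show (⨆ o : Option β, Option.elim o 0 (fun i => (aeval z (u i) : ℝ))) =
        ⨆ o : Option β, (aeval z (Option.elim o 0 u) : ℝ)
      congr 1
      funext o
      cases o with
      | none => simp
      | some i => rfl
  | cons l L ih =>
    intro ι _ u hu
    have h := ih (ι ⊕ Unit) inferInstance
      (Function.update (fun i => rename Sum.inl (u i)) l
        (rename Sum.inl (u l) - 1 - X (Sum.inr ()))) ?_
    · rw [Pool.Agent.CVol.int_box_sum] at h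
      · convert h using 1
        refine integral_congr_ae (Filter.Eventually.of_forall fun z => ?_)
        show (∫ y in (-1 : ℝ)..1, NN L (Function.update (fun i => (aeval z (u i) : ℝ)) l
          ((aeval z (u l) : ℝ) - (1 + y)))) = _
        rw [← int_boxUnit fun y => NN L (Function.update (fun i => (aeval z (u i) : ℝ)) l
          ((aeval z (u l) : ℝ) - (1 + y)))]
        refine integral_congr_ae (Filter.Eventually.of_forall fun b => ?_)
        show NN L _ = NN L _
        congr 1
        funext i
        by_cases hi : i = l
        · subst hi
          rw [Function.update_self, Function.update_self, map_sub, map_sub, aeval_rename,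
            Sum.elim_comp_inl, map_one, aeval_X, Sum.elim_inr]
          ring
        · rw [Function.update_of_ne hi, Function.update_of_ne hi, aeval_rename, Sum.elim_comp_inl]
      · refine (NN_cont L).comp (continuous_pi fun i => cont_aeval _)
    · intro i
      by_cases hi : i = l
      · subst hi
        rw [Function.update_self]
        exact deg_shift (hu i)
      · rw [Function.update_of_ne hi]
        exact (totalDegree_rename_le _ _).trans (hu i)

end Pool.Agent.TopK
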