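import Pool.Agent.W_2cf66e_h6.KFtc6
import Pool.Agent.W_2cf66e_h6.KClo6

/-!
# MP_2cf66e_nt: products of truncated powers of quadratics, natural sign (helper6)
-/

set_option autoImplicit false

noncomputable section

open MeasureTheory MvPolynomial

namespace Pool.Agent.TopK

open Pool.Agent.QVol

/-- The integral of a product of truncated powers. -/
def II {ι β : Type} [Fintype ι] [Fintype β] (u : β → MvPolynomial ι ℚ) (k : β → ℕ) : ℝ :=
  ∫ z in box ι, ∏ i, (max (aeval z (u i) : ℝ) 0) ^ (k i)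

/-- Shift by a new variable. -/
def sh {ι : Type} (p : MvPolynomial ι ℚ) : MvPolynomial (ι ⊕ Unit) ℚ :=
  rename Sum.inl p - 1 - X (Sum.inr ())

theorem sh_aeval {ι : Type} (p : MvPolynomial ι ℚ) (z : ι → ℝ) (b : Unit → ℝ) :
    (aeval (Sum.elim z b : ι ⊕ Unit → ℝ) (sh p) : ℝ) = aeval z p - 1 - b () := by
  unfold sh
  rw [map_sub, map_sub, aeval_rename, Sum.elim_comp_inl, map_one, aeval_X, Sum.elim_inr]

theorem II_cont {ι β : Type} [Fintype ι] [Fintype β] (u : β → MvPolynomial ι ℚ) (k : β → ℕ) :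
    Continuous fun z : ι → ℝ => ∏ i, (max (aeval z (u i) : ℝ) 0) ^ (k i) :=
  continuous_finsetProd _ fun i _ => ((cont_aeval (u i)).max continuous_const).pow _

theorem II_sh {ι β : Type} [Fintype ι] [Fintype β] (u : β → MvPolynomial ι ℚ) (k : β → ℕ) :
    II (fun i => sh (u i)) k = ∫ z in box ι, ∫ s in (-1 : ℝ)..1,
      ∏ i, (max ((aeval z (u i) : ℝ) - 1 - s) 0) ^ (k i) := by
  unfold II
  rw [Pool.Agent.CVol.int_box_sum _ (II_cont _ _)]
  refine integral_congr_ae (Filter.Eventually.of_forall fun z => ?_)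
  show (∫ b in box Unit, ∏ i, (max (aeval (Sum.elim z b : ι ⊕ Unit → ℝ) (sh (u i)) : ℝ) 0) ^ (k i))
    = _
  beta_reduce
  rw [← int_boxUnit fun s => ∏ i, (max ((aeval z (u i) : ℝ) - 1 - s) 0) ^ (k i)]
  refine integral_congr_ae (Filter.Eventually.of_forall fun b => ?_)
  simp only [sh_aeval]

theorem exists_list {β : Type} [Fintype β] [DecidableEq β] (e : β → ℕ) :
    ∃ L : List β, ∀ i, L.count i = e i := by
  refine ⟨(Finsupp.toMultiset (Finsupp.equivFunOnFinite.symm e)).toList, fun i => ?_⟩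
  rw [← Multiset.coe_count, Multiset.coe_toList, Finsupp.count_toMultiset]
  rfl

theorem pp_tp {k : ℕ} (hk : 1 ≤ k) (t : ℝ) : pp k t / (k.factorial : ℝ) = tp k t := by
  obtain ⟨n, rfl⟩ := Nat.exists_eq_add_of_le hk
  unfold tp
  rw [add_comm 1 n, pp_eq_max]

/-- Expansion of the layer cake product. -/
theorem prod_exp {β : Type} [Fintype β] [DecidableEq β] (C X : β → ℝ) :
    (∏ i, C i) - ∏ i, (C i - X i) =
      ∑ S ∈ (Finset.univ : Finset β).powerset.erase ∅,
        (-1) ^ (S.card + 1) * (∏ i ∈ Finset.univ \ S, C i) * ∏ i ∈ S, X i := by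
  have h1 : ∏ i, (C i - X i) = ∑ S ∈ (Finset.univ : Finset β).powerset,
      (-1) ^ S.card * (∏ i ∈ Finset.univ \ S, C i) * ∏ i ∈ S, X i := by
    have h2 : ∀ i, C i - X i = (-X i) + C i := fun i => by ring
    simp only [h2]
    rw [Finset.prod_add]
    refine Finset.sum_congr rfl fun S _ => ?_
    rw [Finset.prod_neg]
    ring
  have h3 := Finset.add_sum_erase (Finset.univ : Finset β).powerset
    (fun S => (-1 : ℝ) ^ S.card * (∏ i ∈ Finset.univ \ S, C i) * ∏ i ∈ S, X i)
    (Finset.empty_mem_powerset _)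
  rw [h1, ← h3]
  simp only [Finset.card_empty, pow_zero, Finset.sdiff_empty, Finset.prod_empty, one_mul, mul_one]
  rw [sub_add_eq_sub_sub, sub_self, zero_sub, ← Finset.sum_neg_distrib]
  refine Finset.sum_congr rfl fun S _ => ?_
  ring

/-- The double integral attached to a set of indices. -/
def JJ {ι β : Type} [Fintype ι] [Fintype β] (u : β → MvPolynomial ι ℚ) (e : β → ℕ)
    (S : Finset β) : ℝ :=
  ∫ z in box ι, ∫ s in (-1 : ℝ)..1, ∏ i ∈ S, tp (e i) ((aeval z (u i) : ℝ) - 1 - s)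

theorem tp_eq (k : ℕ) (t : ℝ) : tp k t = (1 / (k.factorial : ℝ)) * (max t 0) ^ k := by
  unfold tp
  ring

theorem JJ_eq {ι β : Type} [Fintype ι] [Fintype β] (u : β → MvPolynomial ι ℚ) (e : β → ℕ)
    (S : Finset β) : JJ u e S = (∏ i ∈ S, (1 / ((e i).factorial : ℝ))) *
      II (fun i : S => sh (u i)) (fun i : S => e i) := by
  rw [II_sh (fun i : S => u i) (fun i : S => e i)]
  unfold JJ
  rw [← integral_const_mul]
  refine integral_congr_ae (Filter.Eventually.of_forall fun z => ?_)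
  show (∫ s in (-1 : ℝ)..1, ∏ i ∈ S, tp (e i) ((aeval z (u i) : ℝ) - 1 - s)) = _
  beta_reduce
  rw [← intervalIntegral.integral_const_mul]
  refine intervalIntegral.integral_congr fun s _ => ?_
  show (∏ i ∈ S, tp (e i) ((aeval z (u i) : ℝ) - 1 - s)) = _
  simp only [tp_eq]
  rw [Finset.prod_mul_distrib]
  congr 1
  exact (Finset.prod_coe_sort S fun i => (max ((aeval z (u i) : ℝ) - 1 - s) 0) ^ (e i)).symm

theorem JJ_cont {ι β : Type} [Fintype ι] [Fintype β] (u : β → MvPolynomial ι ℚ) (e : β → ℕ)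
    (S : Finset β) : Continuous fun z : ι → ℝ =>
      ∫ s in (-1 : ℝ)..1, ∏ i ∈ S, tp (e i) ((aeval z (u i) : ℝ) - 1 - s) := by
  refine intervalIntegral.continuous_parametric_intervalIntegral_of_continuous' ?_ _ _
  refine continuous_finsetProd _ fun i _ => (tp_cont _).comp ?_
  exact (((cont_aeval (u i)).comp continuous_fst).sub continuous_const).sub continuous_snd

/-- The smoothed maximum in terms of the double integrals. -/
theorem NN_JJ {ι β : Type} [Fintype ι] [Fintype β] [DecidableEq β] (u : β → MvPolynomial ι ℚ)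
    (hu : ∀ z ∈ box ι, ∀ i, (aeval z (u i) : ℝ) ≤ 2) (e : β → ℕ) (he : ∀ i, 1 ≤ e i)
    (L : List β) (hL : ∀ i, L.count i = e i) :
    ∫ z in box ι, NN L (fun i => (aeval z (u i) : ℝ)) =
      ∑ S ∈ (Finset.univ : Finset β).powerset.erase ∅,
        (-1) ^ (S.card + 1) * (∏ i ∈ Finset.univ \ S, (2 : ℝ) ^ (e i)) * JJ u e S := by
  have hm : MeasurableSet (box ι) := by
    unfold box Pool.Agent.CVol.box
    exact measurableSet_Icc
  have hi : ∀ S : Finset β, IntegrableOn (fun z : ι → ℝ =>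
      ∫ s in (-1 : ℝ)..1, ∏ i ∈ S, tp (e i) ((aeval z (u i) : ℝ) - 1 - s)) (box ι) := fun S =>
    (JJ_cont u e S).continuousOn.integrableOn_compact (cpt_box ι)
  have h1 : ∫ z in box ι, NN L (fun i => (aeval z (u i) : ℝ)) =
      ∫ z in box ι, ∑ S ∈ (Finset.univ : Finset β).powerset.erase ∅,
        (-1) ^ (S.card + 1) * (∏ i ∈ Finset.univ \ S, (2 : ℝ) ^ (e i)) *
          ∫ s in (-1 : ℝ)..1, ∏ i ∈ S, tp (e i) ((aeval z (u i) : ℝ) - 1 - s) := by
    refine setIntegral_congr_fun hm fun z hz => ?_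
    show NN L (fun i => (aeval z (u i) : ℝ)) = _
    rw [NN_form L _ (hu z hz)]
    simp only [hL]
    have h2 : ∀ (i : β) (s : ℝ), pp (e i) ((aeval z (u i) : ℝ) - 1 - s) / ((e i).factorial : ℝ) =
        tp (e i) ((aeval z (u i) : ℝ) - 1 - s) := fun i s => pp_tp (he i) _
    simp only [h2, prod_exp]
    rw [intervalIntegral.integral_finsetSum]
    · refine Finset.sum_congr rfl fun S _ => ?_
      rw [intervalIntegral.integral_const_mul]
    · intro S _
      refine Continuous.intervalIntegrable ?_ _ _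
      refine continuous_const.mul (continuous_finsetProd _ fun i _ => (tp_cont _).comp ?_)
      exact continuous_const.sub continuous_id
  rw [h1, integral_finsetSum _ fun S _ => (hi S).const_mul _]
  refine Finset.sum_congr rfl fun S _ => ?_
  rw [integral_const_mul]
  rfl

end Pool.Agent.TopK
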