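import Pool.Agent.W_2cf66e_h6.KNat6

/-!
# MP_2cf66e_nt: products of truncated powers of quadratics, natural sign (helper6)
-/

set_option autoImplicit false

noncomputable section

open MeasureTheory MvPolynomial

namespace Pool.Agent.TopK

open Pool.Agent.QVol

theorem low_ge {β : Type} [DecidableEq β] {k : β → ℕ} {m : ℕ} (hk : ∀ i, m + 1 ≤ k i) (l i : β) :
    m ≤ low k l i := by
  unfold low
  have := hk i
  split_ifs <;> omega

theorem sum_JJ {ι β : Type} [Fintype ι] [Fintype β] [DecidableEq β] [Nonempty β]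
    (u : β → MvPolynomial ι ℚ) (hu : ∀ z ∈ box ι, ∀ i, (aeval z (u i) : ℝ) ≤ 2) (k : β → ℕ)
    (hk : ∀ i, 2 ≤ k i) :
    ∑ l, JJ u (low k l) Finset.univ = (∏ i, (1 / ((k i).factorial : ℝ))) * II u k := by
  have hm : MeasurableSet (box ι) := by
    unfold box Pool.Agent.CVol.box
    exact measurableSet_Icc
  unfold JJ II
  rw [← integral_finsetSum _ fun l _ => (JJ_cont u (low k l)
    Finset.univ).continuousOn.integrableOn_compact (cpt_box ι), ← integral_const_mul]
  refine setIntegral_congr_fun hm fun z hz => ?_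
  show (∑ l, ∫ s in (-1 : ℝ)..1, ∏ i, tp (low k l i) ((aeval z (u i) : ℝ) - 1 - s)) =
    (∏ i, (1 / ((k i).factorial : ℝ))) * ∏ i, (max (aeval z (u i) : ℝ) 0) ^ (k i)
  rw [ftc_prod _ (hu z hz) k hk, ← Finset.prod_mul_distrib]
  refine Finset.prod_congr rfl fun i _ => ?_
  rw [tp_eq]

theorem natural {ι β : Type} [Fintype ι] [Fintype β] [DecidableEq β] [Nonempty β]
    (u : β → MvPolynomial ι ℚ) (hd : ∀ i, (u i).totalDegree ≤ 2)
    (hu : ∀ z ∈ box ι, ∀ i, (aeval z (u i) : ℝ) ≤ 2) (k : β → ℕ) (hk : ∀ i, 2 ≤ k i)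
    (hlow : ∀ S : Finset β, S.Nonempty → S ≠ Finset.univ → ∀ l,
      Dq (II (fun i : S => sh (u i)) (fun i : S => low k l i))) :
    Kq ((-1) ^ (Fintype.card β + 1) * II u k) := by
  choose L hL using fun l : β => exists_list (low k l)
  have h1 : Kq (∑ l, ∫ z in box ι, NN (L l) (fun i => (aeval z (u i) : ℝ))) :=
    Kq_sum _ _ fun l _ => Kq_NN (L l) ι inferInstance u hd
  obtain ⟨P, hP⟩ : ∃ P : Finset (Finset β), P = (Finset.univ : Finset β).powerset.erase ∅ :=
    ⟨_, rfl⟩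
  have hU : (Finset.univ : Finset β) ∈ P := by
    rw [hP]
    exact Finset.mem_erase.mpr ⟨Finset.univ_nonempty.ne_empty, Finset.mem_powerset_self _⟩
  have h2 : ∀ l, ∫ z in box ι, NN (L l) (fun i => (aeval z (u i) : ℝ)) =
      (-1) ^ (Fintype.card β + 1) * JJ u (low k l) Finset.univ +
      ∑ S ∈ P.erase Finset.univ,
        (-1) ^ (S.card + 1) * (∏ i ∈ Finset.univ \ S, (2 : ℝ) ^ (low k l i)) *
          JJ u (low k l) S := by
    intro l
    rw [NN_JJ u hu (low k l) (fun i => low_ge (m := 1) hk l i) (L l) (hL l), ← hP,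
      ← Finset.add_sum_erase P _ hU]
    congr 1
    rw [Finset.sdiff_self, Finset.prod_empty, mul_one, Finset.card_univ]
  simp only [h2] at h1
  rw [Finset.sum_add_distrib, ← Finset.mul_sum, sum_JJ u hu k hk] at h1
  have h3 : Dq (∑ l, ∑ S ∈ P.erase Finset.univ,
        (-1) ^ (S.card + 1) * (∏ i ∈ Finset.univ \ S, (2 : ℝ) ^ (low k l i)) *
          JJ u (low k l) S) := by
    refine Dq_sum _ _ fun l _ => Dq_sum _ _ fun S hS => ?_
    have hS1 : S ≠ Finset.univ := Finset.ne_of_mem_erase hS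
    have hS2 : S.Nonempty := by
      have := Finset.mem_of_mem_erase hS
      rw [hP] at this
      exact Finset.nonempty_iff_ne_empty.mpr (Finset.ne_of_mem_erase this)
    have h4 := Dq_smul (hlow S hS2 hS1 l) ((-1) ^ (S.card + 1) *
      (∏ i ∈ Finset.univ \ S, (2 : ℚ) ^ (low k l i)) *
      (∏ i ∈ S, (1 / ((low k l i).factorial : ℚ))))
    rw [JJ_eq]
    push_cast at h4
    rw [← mul_assoc]
    exact h4
  have h5 := Kq_sub h1 h3
  rw [add_sub_cancel_right] at h5
  have h6 := Kq_smul h5 (∏ i, ((k i).factorial : ℚ)) (Finset.prod_nonneg fun i _ => by positivity)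
  have h7 : ((∏ i, ((k i).factorial : ℚ) : ℚ) : ℝ) * ((-1) ^ (Fintype.card β + 1) *
      ((∏ i, (1 / ((k i).factorial : ℝ))) * II u k)) = (-1) ^ (Fintype.card β + 1) * II u k := by
    have h8 : ((∏ i, ((k i).factorial : ℚ) : ℚ) : ℝ) * (∏ i, (1 / ((k i).factorial : ℝ))) = 1 := by
      push_cast
      rw [← Finset.prod_mul_distrib]
      refine Finset.prod_eq_one fun i _ => ?_
      have h9 : ((k i).factorial : ℝ) ≠ 0 := by exact_mod_cast Nat.factorial_ne_zero (k i)
      field_simp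
    calc ((∏ i, ((k i).factorial : ℚ) : ℚ) : ℝ) * ((-1) ^ (Fintype.card β + 1) *
          ((∏ i, (1 / ((k i).factorial : ℝ))) * II u k))
        = (((∏ i, ((k i).factorial : ℚ) : ℚ) : ℝ) * (∏ i, (1 / ((k i).factorial : ℝ)))) *
          ((-1) ^ (Fintype.card β + 1) * II u k) := by ring
      _ = _ := by rw [h8, one_mul]
  rw [h7] at h6
  exact h6

end Pool.Agent.TopK
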